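import Mathlib

set_option autoImplicit false

namespace Pool.Agent.H.MP_b21e06_an

open Set Filter Topology

noncomputable def cr (k : ℤ) (x y : ℝ) : ℝ := x / (1 + y + x - k)

noncomputable def F : ℕ → ℤ → ℝ
  | 0 => fun k => max (k : ℝ) 0
  | m + 1 => fun k => cr k (F m (k + 1)) (F m (k - 1)) * (1 + F m (k - 1))

theorem cr_spec (k : ℤ) (x y : ℝ) (hx : max ((k + 1 : ℤ) : ℝ) 0 ≤ x)
    (hy : max ((k - 1 : ℤ) : ℝ) 0 ≤ y) :
    0 ≤ cr k x y ∧ cr k x y ≤ 1 ∧ cr k x y * (1 + y) = k * cr k x y + (1 - cr k x y) * x := by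
  have hx1 := le_trans (le_max_left _ _) hx
  have hx0 := le_trans (le_max_right _ _) hx
  have hy1 := le_trans (le_max_left _ _) hy
  have hy0 := le_trans (le_max_right _ _) hy
  push_cast at hx1 hy1
  have hd : 0 < 1 + y + x - k := by linarith
  unfold cr
  refine ⟨div_nonneg hx0 hd.le, (div_le_one hd).2 (by linarith), ?_⟩
  field_simp
  ring

theorem F_ge (m : ℕ) : ∀ k : ℤ, max (k : ℝ) 0 ≤ F m k := by
  induction m with
  | zero => intro k; exact le_rfl
  | succ m ih =>
    intro k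
    obtain ⟨h0, h1, h2⟩ := cr_spec k _ _ (ih (k + 1)) (ih (k - 1))
    have hx := le_trans (le_max_left _ _) (ih (k + 1))
    have hy := le_trans (le_max_right _ _) (ih (k - 1))
    push_cast at hx
    show max (k : ℝ) 0 ≤ cr k (F m (k + 1)) (F m (k - 1)) * (1 + F m (k - 1))
    refine max_le ?_ (mul_nonneg h0 (by linarith))
    rw [h2]
    nlinarith

theorem F_le (m : ℕ) : ∀ k : ℤ, F m k ≤ |(k : ℝ)| + 2 * m := by
  induction m with
  | zero =>
    intro k
    show max (k : ℝ) 0 ≤ _
    simp only [Nat.cast_zero, mul_zero, add_zero]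
    exact max_le (le_abs_self _) (abs_nonneg _)
  | succ m ih =>
    intro k
    obtain ⟨h0, h1, _⟩ := cr_spec k _ _ (F_ge m (k + 1)) (F_ge m (k - 1))
    have hy := le_trans (le_max_right _ _) (F_ge m (k - 1))
    have h3 := ih (k - 1)
    have h4 : |((k - 1 : ℤ) : ℝ)| ≤ |(k : ℝ)| + 1 := by
      push_cast
      have := abs_sub (k : ℝ) 1
      simpa using this
    show cr k (F m (k + 1)) (F m (k - 1)) * (1 + F m (k - 1)) ≤ _
    push_cast
    nlinarith

theorem cmp (k g x y z g' x' y' z' : ℝ) (hz1 : z ≤ k * g + (1 - g) * x) (hz2 : z ≤ g * (1 + y))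
    (h1 : z' = k * g' + (1 - g') * x') (h2 : z' = g' * (1 + y')) (hx : k ≤ x') (hy : -1 ≤ y') :
    z - z' ≤ max ((1 - g) * (x - x')) (g * (y - y')) := by
  rcases le_total g g' with h | h
  · refine le_trans ?_ (le_max_right _ _)
    nlinarith
  · refine le_trans ?_ (le_max_left _ _)
    nlinarith

theorem F_eq (m : ℕ) (k : ℤ) : ∃ g : ℝ, 0 ≤ g ∧ g ≤ 1 ∧
    F (m + 1) k = k * g + (1 - g) * F m (k + 1) ∧ F (m + 1) k = g * (1 + F m (k - 1)) := by
  obtain ⟨h0, h1, h2⟩ := cr_spec k _ _ (F_ge m (k + 1)) (F_ge m (k - 1))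
  exact ⟨_, h0, h1, h2, rfl⟩

theorem F_up (m : ℕ) (k : ℤ) : (k : ℝ) ≤ F m (k + 1) := by
  have := le_trans (le_max_left _ _) (F_ge m (k + 1))
  push_cast at this
  linarith

theorem F_dn (m : ℕ) (k : ℤ) : (-1 : ℝ) ≤ F m k := by
  have := le_trans (le_max_right _ _) (F_ge m k)
  linarith

theorem F_mono (m : ℕ) : ∀ k : ℤ, F m k ≤ F (m + 1) k := by
  induction m with
  | zero => intro k; exact F_ge 1 k
  | succ m ih =>
    intro k
    obtain ⟨g, g0, g1, e1, e2⟩ := F_eq m k
    obtain ⟨g', _, _, e1', e2'⟩ := F_eq (m + 1) k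
    have := cmp k g _ _ _ g' _ _ _ e1.le e2.le e1' e2' (F_up _ _) (F_dn _ _)
    have a1 : (1 - g) * (F m (k + 1) - F (m + 1) (k + 1)) ≤ 0 :=
      mul_nonpos_of_nonneg_of_nonpos (by linarith) (by linarith [ih (k + 1)])
    have a2 : g * (F m (k - 1) - F (m + 1) (k - 1)) ≤ 0 :=
      mul_nonpos_of_nonneg_of_nonpos g0 (by linarith [ih (k - 1)])
    have := le_trans this (max_le a1 a2)
    linarith

theorem F_lim (f γ : ℤ → ℝ) (hγ : ∀ k, γ k ∈ Ioo (0 : ℝ) 1)
    (h0 : ∀ k : ℤ, max (k : ℝ) 0 ≤ f k)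
    (h1 : ∀ k : ℤ, f k = k * γ k + (1 - γ k) * f (k + 1))
    (h2 : ∀ k : ℤ, f k = γ k * (1 + f (k - 1)))
    (L R : ℕ → ℝ) (L0 : L 0 = 1) (R0 : R 0 = 1)
    (LS : ∀ n : ℕ, L (n + 1) = (1 - γ n) * L n) (RS : ∀ n : ℕ, R (n + 1) = γ (-n) * R n)
    (hL : Tendsto (fun n : ℕ => L n * (f n - n)) atTop (𝓝 0))
    (hR : Tendsto (fun n : ℕ => R n * f (-n)) atTop (𝓝 0)) :
    Tendsto (fun m => F m 0) atTop (𝓝 (f 0)) := by
  have hup : ∀ k : ℤ, (k : ℝ) ≤ f (k + 1) := fun k => by
    have := le_trans (le_max_left _ _) (h0 (k + 1))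
    push_cast at this
    linarith
  have hdn : ∀ k : ℤ, (-1 : ℝ) ≤ f k := fun k => by
    have := le_trans (le_max_right _ _) (h0 k)
    linarith
  have hle : ∀ m k, F m k ≤ f k := by
    intro m
    induction m with
    | zero => exact h0
    | succ m ih =>
      intro k
      obtain ⟨g, g0, g1, e1, e2⟩ := F_eq m k
      have := cmp k g _ _ _ (γ k) _ _ _ e1.le e2.le (h1 k) (h2 k) (hup _) (hdn _)
      have a1 : (1 - g) * (F m (k + 1) - f (k + 1)) ≤ 0 :=
        mul_nonpos_of_nonneg_of_nonpos (by linarith) (by linarith [ih (k + 1)])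
      have a2 : g * (F m (k - 1) - f (k - 1)) ≤ 0 :=
        mul_nonpos_of_nonneg_of_nonpos g0 (by linarith [ih (k - 1)])
      have := le_trans this (max_le a1 a2)
      linarith
  have hlim : ∀ k, ∃ x, Tendsto (fun m => F m k) atTop (𝓝 x) := fun k =>
    ⟨_, tendsto_atTop_ciSup (monotone_nat_of_le_succ fun m => F_mono m k)
      ⟨f k, by rintro _ ⟨m, rfl⟩; exact hle m k⟩⟩
  choose G hG using hlim
  set D : ℤ → ℝ := fun k => f k - G k with hD
  have D0 : ∀ k, 0 ≤ D k := fun k => sub_nonneg.2 (le_of_tendsto' (hG k) fun m => hle m k)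
  have D1 : ∀ k : ℤ, D k ≤ f k - max (k : ℝ) 0 := fun k =>
    sub_le_sub_left (ge_of_tendsto' (hG k) fun m => F_ge m k) _
  have D2 : ∀ k, D k ≤ max ((1 - γ k) * D (k + 1)) (γ k * D (k - 1)) := by
    intro k
    have t1 : Tendsto (fun m => f k - F (m + 1) k) atTop (𝓝 (D k)) :=
      tendsto_const_nhds.sub ((hG k).comp (tendsto_add_atTop_nat 1))
    have t2 : Tendsto (fun m => max ((1 - γ k) * (f (k + 1) - F m (k + 1)))
        (γ k * (f (k - 1) - F m (k - 1)))) atTop
        (𝓝 (max ((1 - γ k) * D (k + 1)) (γ k * D (k - 1)))) :=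
      ((tendsto_const_nhds.sub (hG _)).const_mul _).max
        ((tendsto_const_nhds.sub (hG _)).const_mul _)
    refine le_of_tendsto_of_tendsto' t1 t2 fun m => ?_
    obtain ⟨g, _, _, e1, e2⟩ := F_eq m k
    exact cmp k (γ k) _ _ _ g _ _ _ (h1 k).le (h2 k).le e1 e2 (F_up _ _) (F_dn _ _)
  have hz : D 0 = 0 := by
    by_contra hne
    have hp : 0 < D 0 := lt_of_le_of_ne (D0 0) (Ne.symm hne)
    rcases le_max_iff.1 (D2 0) with hc | hc
    · have key : ∀ n : ℕ, 0 < D n ∧ D n ≤ (1 - γ n) * D (n + 1) := by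
        intro n
        induction n with
        | zero => exact ⟨by simpa using hp, by simpa using hc⟩
        | succ n ih =>
          obtain ⟨i1, i2⟩ := ih
          have g1 := hγ n
          have g2 := hγ (n + 1)
          have d1 := D0 (n + 1)
          have i3 : D n ≤ D (n + 1) := by nlinarith [g1.1]
          push_cast
          refine ⟨by linarith, ?_⟩
          rcases le_max_iff.1 (D2 (n + 1)) with hc | hc
          · exact hc
          · rw [add_sub_cancel_right] at hc
            nlinarith [g2.2]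
      have k2 : ∀ n : ℕ, 0 ≤ L n ∧ D 0 ≤ L n * D n := by
        intro n
        induction n with
        | zero => simp [L0]
        | succ n ih =>
          have g1 := hγ n
          rw [LS]
          refine ⟨mul_nonneg (by linarith [g1.2]) ih.1, ?_⟩
          push_cast
          nlinarith [mul_le_mul_of_nonneg_left (key n).2 ih.1, ih.2]
      have : D 0 ≤ 0 := by
        refine ge_of_tendsto' hL fun n => le_trans (k2 n).2 (mul_le_mul_of_nonneg_left ?_ (k2 n).1)
        have := D1 n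
        have h5 := le_max_left ((n : ℤ) : ℝ) 0
        push_cast at this h5
        linarith
      linarith
    · have key : ∀ n : ℕ, 0 < D (-n) ∧ D (-n) ≤ γ (-n) * D (-n - 1) := by
        intro n
        induction n with
        | zero => exact ⟨by simpa using hp, by simpa using hc⟩
        | succ n ih =>
          obtain ⟨i1, i2⟩ := ih
          have g1 := hγ (-n)
          have g2 := hγ (-n - 1)
          have d1 := D0 (-n - 1)
          have i3 : D (-n) ≤ D (-n - 1) := by nlinarith [g1.2]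
          have e : (-((n + 1 : ℕ) : ℤ)) = -n - 1 := by push_cast; ring
          rw [e]
          refine ⟨by linarith, ?_⟩
          rcases le_max_iff.1 (D2 (-n - 1)) with hc | hc
          · rw [sub_add_cancel] at hc
            nlinarith [g2.1]
          · exact hc
      have k2 : ∀ n : ℕ, 0 ≤ R n ∧ D 0 ≤ R n * D (-n) := by
        intro n
        induction n with
        | zero => simp [R0]
        | succ n ih =>
          have g1 := hγ (-n)
          rw [RS]
          refine ⟨mul_nonneg g1.1.le ih.1, ?_⟩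
          have e : (-((n + 1 : ℕ) : ℤ)) = -n - 1 := by push_cast; ring
          rw [e]
          nlinarith [mul_le_mul_of_nonneg_left (key n).2 ih.1, ih.2]
      have : D 0 ≤ 0 := by
        refine ge_of_tendsto' hR fun n => le_trans (k2 n).2 (mul_le_mul_of_nonneg_left ?_ (k2 n).1)
        have := D1 (-n)
        have h5 := le_max_right (((-n : ℤ) : ℤ) : ℝ) 0
        linarith
      linarith
  have : G 0 = f 0 := by
    have : f 0 - G 0 = 0 := hz
    linarith
  rw [← this]
  exact hG 0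

end Pool.Agent.H.MP_b21e06_an
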