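import Pool.Agent.H.MP_b21e06_an.A

set_option autoImplicit false

namespace Pool.Agent.H.MP_b21e06_an

open Set Filter Topology

noncomputable def pt (lam : ℤ → ℝ) (S : ℝ × ℝ × ℤ) : ℝ :=
  lam S.2.2 * S.1 + (1 - lam S.2.2) * S.2.1

noncomputable def node (lam : ℤ → ℝ) : List Bool → ℝ × ℝ × ℤ
  | [] => (0, 1, 0)
  | ans :: w =>
    if ans then (pt lam (node lam w), (node lam w).2.1, (node lam w).2.2 + 1)
    else ((node lam w).1, pt lam (node lam w), (node lam w).2.2 - 1)

noncomputable def alpern (lam : ℤ → ℝ) (w : List Bool) : ℝ := pt lam (node lam w)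

noncomputable def hist (s : List Bool → ℝ) (τ : List ℝ → ℝ) : ℕ → List Bool × List ℝ
  | 0 => ([], [])
  | n + 1 => (decide (s (hist s τ n).1 < τ (hist s τ n).2) :: (hist s τ n).1,
      s (hist s τ n).1 :: (hist s τ n).2)

noncomputable def guess (s : List Bool → ℝ) (τ : List ℝ → ℝ) (n : ℕ) : ℝ := s (hist s τ n).1

noncomputable def pos (s : List Bool → ℝ) (τ : List ℝ → ℝ) (n : ℕ) : ℝ := τ (hist s τ n).2

noncomputable def step (lam : ℤ → ℝ) (h : ℝ) (S : ℝ × ℝ × ℤ) : ℝ × ℝ × ℤ :=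
  if pt lam S < h then (pt lam S, S.2.1, S.2.2 + 1) else (S.1, pt lam S, S.2.2 - 1)

theorem node_hist (lam : ℤ → ℝ) (h : ℝ) (n : ℕ) :
    node lam (hist (alpern lam) (fun _ => h) n).1 = (step lam h)^[n] (0, 1, 0) := by
  induction n with
  | zero => rfl
  | succ n ih =>
    rw [Function.iterate_succ_apply', ← ih]
    simp only [hist, node, step, alpern, decide_eq_true_eq]

theorem guess_static (lam : ℤ → ℝ) (h : ℝ) (n : ℕ) :
    guess (alpern lam) (fun _ => h) n = pt lam ((step lam h)^[n] (0, 1, 0)) := by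
  rw [← node_hist]; rfl

theorem node_inv (lam : ℤ → ℝ) (hl : ∀ k, lam k ∈ Ioo (0 : ℝ) 1) (w : List Bool) :
    0 ≤ (node lam w).1 ∧ (node lam w).1 < (node lam w).2.1 ∧ (node lam w).2.1 ≤ 1 := by
  induction w with
  | nil => simp [node]
  | cons ans w ih =>
    obtain ⟨h0, h1, h2⟩ := ih
    obtain ⟨l0, l1⟩ := hl (node lam w).2.2
    cases ans <;> simp only [node, pt, if_true, Bool.false_eq_true, if_false] <;>
      refine ⟨?_, ?_, ?_⟩ <;> nlinarith

theorem alpern_mem (lam : ℤ → ℝ) (hl : ∀ k, lam k ∈ Ioo (0 : ℝ) 1) (w : List Bool) :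
    alpern lam w ∈ Ioo (0 : ℝ) 1 := by
  obtain ⟨h0, h1, h2⟩ := node_inv lam hl w
  obtain ⟨l0, l1⟩ := hl (node lam w).2.2
  simp only [alpern, pt]
  constructor <;> nlinarith

def Eq' (lam : ℤ → ℝ) (S : ℝ × ℝ × ℤ) (X : ℝ) : Prop :=
  ∃ C : Set ℝ, C.Countable ∧ ∀ h ∈ Ioo S.1 S.2.1, h ∉ C →
    HasSum (fun n => |pt lam ((step lam h)^[n] S) - h|) (X - S.2.2 * h)

theorem hs_congr {f g : ℕ → ℝ} {a b : ℝ} (h : HasSum f a) (h1 : g = f) (h2 : b = a) :
    HasSum g b := by
  subst h1 h2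
  exact h

theorem ex_notMem (C : Set ℝ) (hC : C.Countable) (a b : ℝ) (hab : a < b) :
    ∃ h ∈ Ioo a b, h ∉ C := by
  by_contra hn
  push Not at hn
  have h1 : MeasureTheory.volume (Ioo a b) = 0 :=
    MeasureTheory.measure_mono_null hn (hC.measure_zero _)
  rw [Real.volume_Ioo, ENNReal.ofReal_eq_zero] at h1
  linarith

theorem Eq'_uniq (lam : ℤ → ℝ) (k : ℤ) (X Y : ℝ) (hX : Eq' lam (0, 1, k) X)
    (hY : Eq' lam (0, 1, k) Y) : X = Y := by
  obtain ⟨C, hC, h1⟩ := hX
  obtain ⟨D, hD, h2⟩ := hY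
  obtain ⟨h, hh, hn⟩ := ex_notMem _ (hC.union hD) 0 1 one_pos
  have := (h1 h hh fun hc => hn (Or.inl hc)).unique (h2 h hh fun hc => hn (Or.inr hc))
  linarith

theorem Eq'_ge (lam : ℤ → ℝ) (k : ℤ) (X : ℝ) (hX : Eq' lam (0, 1, k) X) :
    max (k : ℝ) 0 ≤ X := by
  obtain ⟨C, hC, h1⟩ := hX
  have h2 : ∀ h ∈ Ioo (0 : ℝ) 1, h ∉ C → k * h ≤ X := fun h hh hn => by
    have := (h1 h hh hn).nonneg fun n => abs_nonneg _
    simp only at this
    linarith
  have h3 : closure (Ioo (0 : ℝ) 1 ∩ Cᶜ) ⊆ {h | k * h ≤ X} :=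
    closure_minimal (fun h hh => h2 h hh.1 hh.2)
      (isClosed_le (by fun_prop) (by fun_prop))
  have h4 : Ioo (0 : ℝ) 1 ⊆ closure (Ioo (0 : ℝ) 1 ∩ Cᶜ) :=
    (hC.dense_compl ℝ).open_subset_closure_inter isOpen_Ioo
  have h5 : Icc (0 : ℝ) 1 ⊆ {h | k * h ≤ X} := by
    rw [← closure_Ioo (zero_ne_one' ℝ)]
    exact closure_minimal (h4.trans h3) (isClosed_le (by fun_prop) (by fun_prop))
  have a := h5 (show (0 : ℝ) ∈ Icc (0 : ℝ) 1 by simp)
  have b := h5 (show (1 : ℝ) ∈ Icc (0 : ℝ) 1 by simp)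
  simp only [mem_ofPred_eq, mul_zero, mul_one] at a b
  exact max_le b a

theorem step_scale (lam : ℤ → ℝ) (a c : ℝ) (hc : 0 < c) (t : ℝ) (n : ℕ) (S : ℝ × ℝ × ℤ) :
    (step lam (a + c * t))^[n] (a + c * S.1, a + c * S.2.1, S.2.2) =
      (a + c * ((step lam t)^[n] S).1, a + c * ((step lam t)^[n] S).2.1,
        ((step lam t)^[n] S).2.2) := by
  induction n with
  | zero => rfl
  | succ n ih =>
    rw [Function.iterate_succ_apply', Function.iterate_succ_apply', ih]
    generalize (step lam t)^[n] S = T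
    have e : pt lam (a + c * T.1, a + c * T.2.1, T.2.2) = a + c * pt lam T := by
      simp only [pt]; ring
    have e2 : a + c * pt lam T < a + c * t ↔ pt lam T < t := by
      constructor
      · intro h; nlinarith
      · intro h; nlinarith
    simp only [step, e, e2]
    split_ifs <;> rfl

theorem Eq'_scale (lam : ℤ → ℝ) (a b : ℝ) (hab : a < b) (k : ℤ) (X : ℝ)
    (hX : Eq' lam (a, b, k) X) : Eq' lam (0, 1, k) ((X - k * a) / (b - a)) := by
  obtain ⟨C, hC, h1⟩ := hX
  have hc : 0 < b - a := by linarith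
  refine ⟨(fun t => a + (b - a) * t) ⁻¹' C, hC.preimage_of_injOn ?_, ?_⟩
  · intro x _ y _ h
    exact mul_left_cancel₀ hc.ne' (add_left_cancel h)
  · intro t ht hn
    have h2 := h1 (a + (b - a) * t) ⟨by nlinarith [ht.1], by nlinarith [ht.2]⟩ hn
    have e := fun n => step_scale lam a (b - a) hc t n (0, 1, k)
    simp only [mul_zero, add_zero, mul_one, add_sub_cancel] at e
    have h3 := h2.div_const (b - a)
    refine hs_congr h3 ?_ ?_
    · funext n
      rw [e n]
      generalize (step lam t)^[n] (0, 1, k) = T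
      have : pt lam (a + (b - a) * T.1, a + (b - a) * T.2.1, T.2.2) - (a + (b - a) * t) =
          (b - a) * (pt lam T - t) := by simp only [pt]; ring
      rw [this, abs_mul, abs_of_pos hc]
      field_simp
    · simp only
      field_simp
      ring

theorem Eq'_up (lam : ℤ → ℝ) (hl : ∀ k, lam k ∈ Ioo (0 : ℝ) 1) (k : ℤ) (X : ℝ)
    (hX : Eq' lam (0, 1, k) X) :
    Eq' lam (0, 1, k + 1) ((X - k * (1 - lam k)) / lam k) := by
  obtain ⟨C, hC, h1⟩ := hX
  obtain ⟨l0, l1⟩ := hl k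
  have : Eq' lam (1 - lam k, 1, k + 1) (X + (1 - lam k)) := by
    refine ⟨C, hC, fun h hh hn => ?_⟩
    have h2 := h1 h ⟨by simp only at hh ⊢; linarith [hh.1], hh.2⟩ hn
    rw [← hasSum_nat_add_iff' 1] at h2
    have e : pt lam (0, 1, k) = 1 - lam k := by simp [pt]
    have e2 : step lam h (0, 1, k) = (1 - lam k, 1, k + 1) := by
      simp only [step, e]
      rw [if_pos hh.1]
    simp only [Function.iterate_succ_apply, e2, Finset.sum_range_one, Function.iterate_zero_apply,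
      e] at h2
    refine hs_congr h2 rfl ?_
    rw [abs_of_neg (by linarith [hh.1])]
    push_cast
    ring
  have h3 := Eq'_scale lam _ _ (by linarith) _ _ this
  convert h3 using 1
  push_cast
  congr 1 <;> ring

theorem Eq'_dn (lam : ℤ → ℝ) (hl : ∀ k, lam k ∈ Ioo (0 : ℝ) 1) (k : ℤ) (X : ℝ)
    (hX : Eq' lam (0, 1, k) X) :
    Eq' lam (0, 1, k - 1) ((X - (1 - lam k)) / (1 - lam k)) := by
  obtain ⟨C, hC, h1⟩ := hX
  obtain ⟨l0, l1⟩ := hl k
  have : Eq' lam (0, 1 - lam k, k - 1) (X - (1 - lam k)) := by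
    refine ⟨C, hC, fun h hh hn => ?_⟩
    have h2 := h1 h ⟨hh.1, by simp only at hh ⊢; linarith [hh.2]⟩ hn
    rw [← hasSum_nat_add_iff' 1] at h2
    have e : pt lam (0, 1, k) = 1 - lam k := by simp [pt]
    have e2 : step lam h (0, 1, k) = (0, 1 - lam k, k - 1) := by
      simp only [step, e]
      rw [if_neg (not_lt.2 hh.2.le)]
    simp only [Function.iterate_succ_apply, e2, Finset.sum_range_one, Function.iterate_zero_apply,
      e] at h2
    refine hs_congr h2 rfl ?_
    rw [abs_of_pos (by linarith [hh.2])]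
    push_cast
    ring
  have h3 := Eq'_scale lam _ _ (by linarith) _ _ this
  convert h3 using 1
  congr 1 <;> ring

theorem v_lim (lam : ℤ → ℝ) (v : ℝ) (hl : ∀ k, lam k ∈ Ioo (0 : ℝ) 1)
    (hv : ∀ h ∈ Icc (0 : ℝ) 1, (∀ w, alpern lam w ≠ h) →
      HasSum (fun n => |guess (alpern lam) (fun _ => h) n - h|) v) :
    Tendsto (fun m => F m 0) atTop (𝓝 v) := by
  have E0 : Eq' lam (0, 1, 0) v := by
    refine ⟨range (alpern lam), countable_range _, fun h hh hn => ?_⟩
    have := hv h ⟨hh.1.le, hh.2.le⟩ fun w hw => hn ⟨w, hw⟩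
    simpa [guess_static] using this
  have hex : ∀ k : ℤ, ∃ X, Eq' lam (0, 1, k) X := by
    intro k
    induction k using Int.induction_on with
    | zero => exact ⟨v, E0⟩
    | succ n ih => obtain ⟨X, hX⟩ := ih; exact ⟨_, Eq'_up lam hl _ _ hX⟩
    | pred n ih => obtain ⟨X, hX⟩ := ih; exact ⟨_, Eq'_dn lam hl _ _ hX⟩
  choose f hf using hex
  have f0 : f 0 = v := Eq'_uniq lam 0 _ _ (hf 0) E0
  have h1 : ∀ k : ℤ, f k = k * (1 - lam k) + (1 - (1 - lam k)) * f (k + 1) := fun k => by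
    rw [Eq'_uniq lam _ _ _ (hf (k + 1)) (Eq'_up lam hl k _ (hf k))]
    have := (hl k).1.ne'
    field_simp
    ring
  have h2 : ∀ k : ℤ, f k = (1 - lam k) * (1 + f (k - 1)) := fun k => by
    rw [Eq'_uniq lam _ _ _ (hf (k - 1)) (Eq'_dn lam hl k _ (hf k))]
    have : 1 - lam k ≠ 0 := by linarith [(hl k).2]
    field_simp
    ring
  obtain ⟨L, L0, LS⟩ : ∃ L : ℕ → ℝ, L 0 = 1 ∧ ∀ n : ℕ, L (n + 1) = (1 - (1 - lam n)) * L n :=
    ⟨fun n => Nat.rec 1 (fun n x => (1 - (1 - lam n)) * x) n, rfl, fun _ => rfl⟩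
  obtain ⟨R, R0, RS⟩ : ∃ R : ℕ → ℝ, R 0 = 1 ∧ ∀ n : ℕ, R (n + 1) = (1 - lam (-n)) * R n :=
    ⟨fun n => Nat.rec 1 (fun n x => (1 - lam (-n)) * x) n, rfl, fun _ => rfl⟩
  have Lp : ∀ n, 0 < L n := fun n => by
    induction n with
    | zero => rw [L0]; exact one_pos
    | succ n ih => rw [LS]; exact mul_pos (by linarith [(hl n).1]) ih
  have Rp : ∀ n, 0 < R n := fun n => by
    induction n with
    | zero => rw [R0]; exact one_pos
    | succ n ih => rw [RS]; exact mul_pos (by linarith [(hl (-n)).2]) ih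
  have sL : ∀ n : ℕ, (step lam 1)^[n] (0, 1, 0) = (1 - L n, 1, (n : ℤ)) := fun n => by
    induction n with
    | zero => simp [L0]
    | succ n ih =>
      rw [Function.iterate_succ_apply', ih]
      have e : pt lam (1 - L n, 1, (n : ℤ)) = 1 - L (n + 1) := by
        rw [LS]; simp only [pt]; ring
      simp only [step, e]
      rw [if_pos (by linarith [Lp (n + 1)])]
      simp
  have sR : ∀ n : ℕ, (step lam 0)^[n] (0, 1, 0) = (0, R n, -(n : ℤ)) := fun n => by
    induction n with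
    | zero => simp [R0]
    | succ n ih =>
      rw [Function.iterate_succ_apply', ih]
      have e : pt lam (0, R n, -(n : ℤ)) = R (n + 1) := by
        rw [RS]; simp only [pt]; ring
      simp only [step, e]
      rw [if_neg (by linarith [Rp (n + 1)])]
      simp only [Prod.mk.injEq, true_and]
      push_cast
      ring
  have HL : HasSum (fun n => L (n + 1)) v := by
    refine hs_congr (hv 1 (by simp) (fun w hw => (alpern_mem lam hl w).2.ne hw)) ?_ rfl
    funext n
    rw [guess_static, sL]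
    have e : pt lam (1 - L n, 1, (n : ℤ)) = 1 - L (n + 1) := by
      rw [LS]; simp only [pt]; ring
    rw [e, abs_of_neg (by linarith [Lp (n + 1)])]
    ring
  have HR : HasSum (fun n => R (n + 1)) v := by
    refine hs_congr (hv 0 (by simp) (fun w hw => (alpern_mem lam hl w).1.ne' hw)) ?_ rfl
    funext n
    rw [guess_static, sR]
    have e : pt lam (0, R n, -(n : ℤ)) = R (n + 1) := by
      rw [RS]; simp only [pt]; ring
    rw [e, sub_zero, abs_of_pos (Rp (n + 1))]
  have iL : ∀ n : ℕ, L n * (f n - n) = v - ∑ i ∈ Finset.range n, L (i + 1) := fun n => by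
    induction n with
    | zero => simp [L0, f0]
    | succ n ih =>
      rw [Finset.sum_range_succ, ← sub_sub, ← ih, LS, h1 n]
      push_cast
      ring
  have iR : ∀ n : ℕ, R n * f (-n) = v - ∑ i ∈ Finset.range n, R (i + 1) := fun n => by
    induction n with
    | zero => simp [R0, f0]
    | succ n ih =>
      have e : (-((n + 1 : ℕ) : ℤ)) = -n - 1 := by push_cast; ring
      rw [Finset.sum_range_succ, ← sub_sub, ← ih, RS, h2 (-n), e]
      ring
  rw [← f0]
  refine F_lim f (fun k => 1 - lam k) (fun k => ⟨by linarith [(hl k).2], by linarith [(hl k).1]⟩)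
    (fun k => Eq'_ge lam k _ (hf k)) h1 h2 L R L0 R0 LS RS ?_ ?_
  · simp only [iL]
    simpa using (tendsto_const_nhds (x := v)).sub HL.tendsto_sum_nat
  · simp only [iR]
    simpa using (tendsto_const_nhds (x := v)).sub HR.tendsto_sum_nat

end Pool.Agent.H.MP_b21e06_an
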