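import Pool.Agent.H.MP_b21e06_an.B

set_option autoImplicit false

namespace Pool.Agent.H.MP_b21e06_an

open Set Filter Topology MeasureTheory

noncomputable def cc : ℕ → ℤ → ℝ
  | 0 => fun k => if 0 ≤ k then 1 else 0
  | m + 1 => fun k => cr k (F m (k + 1)) (F m (k - 1))

noncomputable def pert (θ c : ℝ) : ℝ := if c ≤ 1 / 2 then c + θ else c - θ

noncomputable def thr (θ : ℝ) (m : ℕ) (S : ℝ × ℝ × ℤ) : ℝ :=
  S.1 + pert θ (cc m S.2.2) * (S.2.1 - S.1)

noncomputable def upd (S : ℝ × ℝ × ℤ) (g : ℝ) (ans : Bool) : ℝ × ℝ × ℤ :=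
  if ans then (max S.1 g, S.2.1, S.2.2 + 1) else (S.1, min S.2.1 g, S.2.2 - 1)

noncomputable def bst (N : ℕ) (θ : ℝ) : List ℝ → ℝ × ℝ × ℤ
  | [] => (0, 1, 0)
  | g :: G => if G.length < N then
      upd (bst N θ G) g (decide (g < thr θ (N - G.length) (bst N θ G))) else bst N θ G

noncomputable def tau (N : ℕ) (θ : ℝ) (G : List ℝ) : ℝ := thr θ (N - G.length) (bst N θ G)

noncomputable def tst (N : ℕ) (s : List Bool → ℝ) : List Bool → ℝ × ℝ × ℤ
  | [] => (0, 1, 0)
  | ans :: w => if w.length < N then upd (tst N s w) (s w) ans else tst N s w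

theorem cc_mem (m : ℕ) (k : ℤ) : 0 ≤ cc m k ∧ cc m k ≤ 1 := by
  cases m with
  | zero => simp only [cc]; split_ifs <;> norm_num
  | succ m =>
    obtain ⟨h0, h1, _⟩ := cr_spec k _ _ (F_ge m (k + 1)) (F_ge m (k - 1))
    exact ⟨h0, h1⟩

theorem pert_spec (θ c : ℝ) (h0 : 0 < θ) (h1 : θ < 1 / 2) (c0 : 0 ≤ c) (c1 : c ≤ 1) :
    0 < pert θ c ∧ pert θ c < 1 ∧ c - θ ≤ pert θ c ∧ pert θ c ≤ c + θ := by
  unfold pert
  split_ifs with h
  · refine ⟨?_, ?_, ?_, ?_⟩ <;> linarith
  · push Not at h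
    refine ⟨?_, ?_, ?_, ?_⟩ <;> linarith

theorem thr_mem (θ : ℝ) (h0 : 0 < θ) (h1 : θ < 1 / 2) (m : ℕ) (S : ℝ × ℝ × ℤ) (hS : S.1 < S.2.1) :
    S.1 < thr θ m S ∧ thr θ m S < S.2.1 := by
  obtain ⟨p0, p1, _, _⟩ := pert_spec θ _ h0 h1 (cc_mem m S.2.2).1 (cc_mem m S.2.2).2
  unfold thr
  constructor <;> nlinarith

theorem hist_inv (N : ℕ) (θ : ℝ) (s : List Bool → ℝ) (n : ℕ) :
    (hist s (tau N θ) n).1.length = n ∧ (hist s (tau N θ) n).2.length = n ∧
      bst N θ (hist s (tau N θ) n).2 = tst N s (hist s (tau N θ) n).1 := by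
  induction n with
  | zero => exact ⟨rfl, rfl, rfl⟩
  | succ n ih =>
    obtain ⟨h1, h2, h3⟩ := ih
    refine ⟨by simp [hist, h1], by simp [hist, h2], ?_⟩
    simp only [hist, bst, tst, tau, h1, h2, h3]

theorem pot_step (θ : ℝ) (h0 : 0 < θ) (h1 : θ < 1 / 2) (m : ℕ) (a b : ℝ) (k : ℤ) (g : ℝ)
    (M : ℝ) (hab : a < b) (hab1 : b - a ≤ 1) (hM : 2 * |(k : ℝ)| + 2 * m + 2 ≤ M) :
    (g < thr θ (m + 1) (a, b, k) →
      k * a + (b - a) * F (m + 1) k - θ * M ≤
        -g + (k + 1) * max a g + (b - max a g) * F m (k + 1)) ∧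
    (thr θ (m + 1) (a, b, k) ≤ g →
      k * a + (b - a) * F (m + 1) k - θ * M ≤
        g + (k - 1) * a + (min b g - a) * F m (k - 1)) := by
  obtain ⟨c0, c1, c2⟩ := cr_spec k _ _ (F_ge m (k + 1)) (F_ge m (k - 1))
  obtain ⟨p0, p1, p2, p3⟩ := pert_spec θ _ h0 h1 c0 c1
  have e : F (m + 1) k = cr k (F m (k + 1)) (F m (k - 1)) * (1 + F m (k - 1)) := rfl
  have et : thr θ (m + 1) (a, b, k) =
      a + pert θ (cr k (F m (k + 1)) (F m (k - 1))) * (b - a) := rfl
  have x0 := F_up m k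
  have y0 := F_dn m (k - 1)
  have x1 := F_le m (k + 1)
  have y1 := F_le m (k - 1)
  have a1 : |((k + 1 : ℤ) : ℝ)| ≤ |(k : ℝ)| + 1 := by
    push_cast
    simpa using abs_add_le (k : ℝ) 1
  have a2 : |((k - 1 : ℤ) : ℝ)| ≤ |(k : ℝ)| + 1 := by
    push_cast
    simpa using abs_sub (k : ℝ) 1
  have a3 := neg_abs_le (k : ℝ)
  have a4 := abs_nonneg (k : ℝ)
  rw [et, e]
  set c := cr k (F m (k + 1)) (F m (k - 1))
  set p := pert θ c
  set x := F m (k + 1)
  set y := F m (k - 1)
  have hL : 0 < b - a := by linarith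
  constructor
  · intro hg
    have hu : max a g ≤ a + (c + θ) * (b - a) := by
      refine max_le ?_ ?_ <;> nlinarith
    have hg2 : g ≤ max a g := le_max_right _ _
    set u := max a g
    rw [c2]
    have s1 : x - k ≤ M := by linarith
    have s2 : (x - k) * u ≤ (x - k) * (a + (c + θ) * (b - a)) :=
      mul_le_mul_of_nonneg_left hu (by linarith)
    have s3 : (x - k) * (b - a) ≤ M := by nlinarith
    nlinarith [mul_le_mul_of_nonneg_left s3 h0.le]
  · intro hg
    have hu : a + (c - θ) * (b - a) ≤ min b g := by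
      refine le_min ?_ ?_ <;> nlinarith
    have hg2 : min b g ≤ g := min_le_right _ _
    set u := min b g
    have s1 : 1 + y ≤ M := by linarith
    have s2 : (1 + y) * (a + (c - θ) * (b - a)) ≤ (1 + y) * u :=
      mul_le_mul_of_nonneg_left hu (by linarith)
    have s3 : (1 + y) * (b - a) ≤ M := by nlinarith
    nlinarith [mul_le_mul_of_nonneg_left s3 h0.le]

theorem play (N : ℕ) (θ : ℝ) (h0 : 0 < θ) (h1 : θ < 1 / 2) (g h : ℕ → ℝ) (S : ℕ → ℝ × ℝ × ℤ)
    (S0 : S 0 = (0, 1, 0))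
    (SS : ∀ n, S (n + 1) = if n < N then upd (S n) (g n) (decide (g n < h n)) else S n)
    (hh : ∀ n, h n = thr θ (N - n) (S n)) :
    (∀ n, (S n).1 < (S n).2.1) ∧
    (∀ n, h n ∈ Icc (0 : ℝ) 1 ∧ ∀ i < n, (g i < h i → g i < h n) ∧ (h i < g i → h n < g i)) ∧
    (∀ n, N ≤ n → h n = h N) ∧
    F N 0 - θ * (N * (4 * N + 3)) ≤ ∑ i ∈ Finset.range N, |g i - h N| := by
  have I1 : ∀ n, 0 ≤ (S n).1 ∧ (S n).1 < (S n).2.1 ∧ (S n).2.1 ≤ 1 ∧ |((S n).2.2 : ℝ)| ≤ n ∧
      ∀ i < n, i < N → (g i < h i → g i ≤ (S n).1) ∧ (h i < g i → (S n).2.1 ≤ g i) := by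
    intro n
    induction n with
    | zero => simp [S0]
    | succ n ih =>
      obtain ⟨i0, i1, i2, i3, i4⟩ := ih
      obtain ⟨t0, t1⟩ := thr_mem θ h0 h1 (N - n) (S n) i1
      rw [← hh] at t0 t1
      rw [SS]
      by_cases hn : n < N
      · rw [if_pos hn]
        by_cases hg : g n < h n
        · simp only [upd, hg, decide_true, if_true]
          refine ⟨le_max_of_le_left i0, max_lt i1 (by linarith), i2, ?_, ?_⟩
          · push_cast
            have := abs_add_le ((S n).2.2 : ℝ) 1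
            simp only [abs_one] at this
            linarith
          · intro i hi hiN
            rcases Nat.lt_succ_iff_lt_or_eq.1 hi with hi | rfl
            · exact ⟨fun q => le_max_of_le_left ((i4 i hi hiN).1 q), (i4 i hi hiN).2⟩
            · exact ⟨fun _ => le_max_right _ _, fun q => absurd hg (not_lt.2 q.le)⟩
        · simp only [upd, hg, decide_false, Bool.false_eq_true, if_false]
          refine ⟨i0, lt_min i1 (by linarith), min_le_of_left_le i2, ?_, ?_⟩
          · push_cast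
            have := abs_sub ((S n).2.2 : ℝ) 1
            simp only [abs_one] at this
            linarith
          · intro i hi hiN
            rcases Nat.lt_succ_iff_lt_or_eq.1 hi with hi | rfl
            · exact ⟨(i4 i hi hiN).1, fun q => min_le_of_left_le ((i4 i hi hiN).2 q)⟩
            · exact ⟨fun q => absurd q hg, fun _ => min_le_right _ _⟩
      · rw [if_neg hn]
        refine ⟨i0, i1, i2, by push_cast; linarith, ?_⟩
        intro i hi hiN
        exact i4 i (by omega) hiN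
  have I2 : ∀ n, N ≤ n → S n = S N := by
    intro n hn
    induction n, hn using Nat.le_induction with
    | base => rfl
    | succ n hn ih => rw [SS, if_neg (by omega), ih]
  have I3 : ∀ n, N ≤ n → h n = h N := by
    intro n hn
    rw [hh, hh, I2 n hn, Nat.sub_self, Nat.sub_eq_zero_of_le hn]
  refine ⟨fun n => (I1 n).2.1, fun n => ?_, I3, ?_⟩
  · obtain ⟨i0, i1, i2, _, i4⟩ := I1 n
    obtain ⟨t0, t1⟩ := thr_mem θ h0 h1 (N - n) (S n) i1
    rw [← hh] at t0 t1
    refine ⟨⟨by linarith, by linarith⟩, fun i hi => ?_⟩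
    by_cases hiN : i < N
    · exact ⟨fun q => by linarith [(i4 i hi hiN).1 q], fun q => by linarith [(i4 i hi hiN).2 q]⟩
    · rw [I3 n (by omega), I3 i (by omega)]
      exact ⟨id, id⟩
  · have I4 : ∀ n, n ≤ N → ∃ c : ℝ,
        (∀ x : ℝ, c + (S n).2.2 * x ≤ ∑ i ∈ Finset.range n, |g i - x|) ∧
        F N 0 - θ * (n * (4 * N + 2)) ≤
          c + (S n).2.2 * (S n).1 + ((S n).2.1 - (S n).1) * F (N - n) (S n).2.2 := by
      intro n
      induction n with
      | zero => intro _; exact ⟨0, by simp [S0], by simp [S0]⟩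
      | succ n ih =>
        intro hn
        obtain ⟨c, c1, c2⟩ := ih (by omega)
        obtain ⟨i0, i1, i2, i3, _⟩ := I1 n
        obtain ⟨m, hm⟩ : ∃ m, N - n = m + 1 := ⟨N - (n + 1), by omega⟩
        have hm' : N - (n + 1) = m := by omega
        have hmN : (m : ℝ) ≤ N := by exact_mod_cast (by omega : m ≤ N)
        have hnN : (n : ℝ) ≤ N := by exact_mod_cast (by omega : n ≤ N)
        have P := pot_step θ h0 h1 m (S n).1 (S n).2.1 (S n).2.2 (g n) (4 * N + 2) i1
          (by linarith) (by linarith)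
        have eh : thr θ (m + 1) ((S n).1, (S n).2.1, (S n).2.2) = h n := by rw [hh, hm]
        rw [eh] at P
        rw [hm] at c2
        rw [SS, if_pos (by omega), hm']
        by_cases hg : g n < h n
        · simp only [upd, hg, decide_true, if_true]
          refine ⟨c - g n, fun x => ?_, ?_⟩
          · rw [Finset.sum_range_succ]
            push_cast
            linarith [c1 x, neg_abs_le (g n - x)]
          · push_cast
            linarith [P.1 hg]
        · simp only [upd, hg, decide_false, Bool.false_eq_true, if_false]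
          refine ⟨c + g n, fun x => ?_, ?_⟩
          · rw [Finset.sum_range_succ]
            push_cast
            linarith [c1 x, le_abs_self (g n - x)]
          · push_cast
            linarith [P.2 (not_lt.1 hg)]
    obtain ⟨c, c1, c2⟩ := I4 N le_rfl
    refine le_trans ?_ (c1 (h N))
    obtain ⟨i0, i1, i2, i3, _⟩ := I1 N
    rw [hh]
    rw [Nat.sub_self] at c2 ⊢
    have e : F 0 (S N).2.2 = max ((S N).2.2 : ℝ) 0 := rfl
    rw [e] at c2
    have hk := abs_le.1 i3
    have hL : 0 < (S N).2.1 - (S N).1 := by linarith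
    have hL1 : (S N).2.1 - (S N).1 ≤ 1 := by linarith
    simp only [thr, cc, pert]
    set a := (S N).1
    set L := (S N).2.1 - a
    by_cases hk0 : 0 ≤ (S N).2.2
    · have hk1 : (0 : ℝ) ≤ (S N).2.2 := by exact_mod_cast hk0
      rw [max_eq_left hk1] at c2
      rw [if_pos hk0, if_neg (by norm_num)]
      have : ((S N).2.2 : ℝ) * L ≤ N := by nlinarith
      nlinarith [mul_le_mul_of_nonneg_left this h0.le]
    · have hk1 : ((S N).2.2 : ℝ) ≤ 0 := by exact_mod_cast (not_le.1 hk0).le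
      rw [max_eq_right hk1] at c2
      rw [if_neg hk0, if_pos (by norm_num)]
      have : -(N : ℝ) ≤ ((S N).2.2 : ℝ) * L := by nlinarith
      nlinarith [mul_le_mul_of_nonneg_left this h0.le]

end Pool.Agent.H.MP_b21e06_an
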