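import Pool.Agent.H.MP_b21e06_an.C

set_option autoImplicit false

namespace Pool.Agent.H.MP_b21e06_an

open Set Filter Topology MeasureTheory
open scoped ENNReal

def Legal (τ : List ℝ → ℝ) : Prop :=
  (∀ n : ℕ, Measurable fun x : Fin n → ℝ => τ (List.ofFn x)) ∧
  ∀ (s : List Bool → ℝ) (n : ℕ), pos s τ n ∈ Icc (0 : ℝ) 1 ∧
    ∀ i < n, (guess s τ i < pos s τ i → guess s τ i < pos s τ n) ∧
      (pos s τ i < guess s τ i → pos s τ n < guess s τ i)

open Classical in
noncomputable def payoff (s : List Bool → ℝ) (τ : List ℝ → ℝ) : ℝ≥0∞ :=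
  if ∃ n, guess s τ n = pos s τ n then 0
  else ⨅ x : ℝ, ⨅ _ : Tendsto (pos s τ) atTop (𝓝 x), ∑' n, ENNReal.ofReal |guess s τ n - x|

theorem meas_thr {α : Type} [MeasurableSpace α] (θ : ℝ) (m : ℕ) (S : α → ℝ × ℝ × ℤ)
    (hS : Measurable S) : Measurable fun x => thr θ m (S x) := by
  have h1 : Measurable fun k : ℤ => pert θ (cc m k) := measurable_of_countable _
  have h2 : Measurable fun x => pert θ (cc m (S x).2.2) := h1.comp hS.snd.snd
  unfold thr
  exact hS.fst.add (h2.mul (hS.snd.fst.sub hS.fst))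

theorem meas_upd {α : Type} [MeasurableSpace α] (S : α → ℝ × ℝ × ℤ) (g : α → ℝ)
    (hS : Measurable S) (hg : Measurable g) (b : Bool) : Measurable fun x => upd (S x) (g x) b := by
  have h1 : Measurable fun k : ℤ => k + 1 := measurable_of_countable _
  have h2 : Measurable fun k : ℤ => k - 1 := measurable_of_countable _
  cases b
  · simp only [upd, Bool.false_eq_true, if_false]
    exact hS.fst.prodMk ((hS.snd.fst.min hg).prodMk (h2.comp hS.snd.snd))
  · simp only [upd, if_true]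
    exact (hS.fst.max hg).prodMk (hS.snd.fst.prodMk (h1.comp hS.snd.snd))

theorem meas_bst (N : ℕ) (θ : ℝ) (n : ℕ) :
    Measurable fun x : Fin n → ℝ => bst N θ (List.ofFn x) := by
  induction n with
  | zero => simp only [List.ofFn_zero]; exact measurable_const
  | succ n ih =>
    have h1 : Measurable fun x : Fin (n + 1) → ℝ => bst N θ (List.ofFn fun i : Fin n => x i.succ) :=
      ih.comp (measurable_pi_lambda _ fun i => measurable_pi_apply _)
    have h2 : Measurable fun x : Fin (n + 1) → ℝ => x 0 := measurable_pi_apply _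
    simp only [List.ofFn_succ, bst, List.length_ofFn]
    by_cases hn : n < N
    · simp only [hn, if_true]
      have e : (fun x : Fin (n + 1) → ℝ => upd (bst N θ (List.ofFn fun i : Fin n => x i.succ)) (x 0)
          (decide (x 0 < thr θ (N - n) (bst N θ (List.ofFn fun i : Fin n => x i.succ))))) =
          fun x => if x 0 < thr θ (N - n) (bst N θ (List.ofFn fun i : Fin n => x i.succ)) then
            upd (bst N θ (List.ofFn fun i : Fin n => x i.succ)) (x 0) true
          else upd (bst N θ (List.ofFn fun i : Fin n => x i.succ)) (x 0) false := by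
        funext x
        split_ifs with h <;> simp [h]
      rw [e]
      exact Measurable.ite (measurableSet_lt h2 (meas_thr θ _ _ h1)) (meas_upd _ _ h1 h2 _)
        (meas_upd _ _ h1 h2 _)
    · simp only [hn, if_false]
      exact h1

theorem meas_tst (N : ℕ) (w : List Bool) : Measurable fun s : List Bool → ℝ => tst N s w := by
  induction w with
  | nil => exact measurable_const
  | cons ans w ih =>
    simp only [tst]
    split_ifs
    · exact meas_upd _ _ ih (measurable_pi_apply _) _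
    · exact ih

theorem play_tau (N : ℕ) (θ : ℝ) (h0 : 0 < θ) (h1 : θ < 1 / 2) (s : List Bool → ℝ) :
    (∀ n, (bst N θ (hist s (tau N θ) n).2).1 < (bst N θ (hist s (tau N θ) n).2).2.1) ∧
    (∀ n, pos s (tau N θ) n ∈ Icc (0 : ℝ) 1 ∧ ∀ i < n,
      (guess s (tau N θ) i < pos s (tau N θ) i → guess s (tau N θ) i < pos s (tau N θ) n) ∧
      (pos s (tau N θ) i < guess s (tau N θ) i → pos s (tau N θ) n < guess s (tau N θ) i)) ∧
    (∀ n, N ≤ n → pos s (tau N θ) n = pos s (tau N θ) N) ∧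
    F N 0 - θ * (N * (4 * N + 3)) ≤
      ∑ i ∈ Finset.range N, |guess s (tau N θ) i - pos s (tau N θ) N| := by
  refine play N θ h0 h1 (guess s (tau N θ)) (pos s (tau N θ))
    (fun n => bst N θ (hist s (tau N θ) n).2) rfl (fun n => ?_) (fun n => ?_)
  · have h2 := (hist_inv N θ s n).2.1
    simp only [hist, bst, guess, pos, tau, h2]
  · have h2 := (hist_inv N θ s n).2.1
    simp only [pos, tau, h2]

theorem legal_tau (N : ℕ) (θ : ℝ) (h0 : 0 < θ) (h1 : θ < 1 / 2) : Legal (tau N θ) := by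
  refine ⟨fun n => ?_, fun s => (play_tau N θ h0 h1 s).2.1⟩
  simp only [tau, List.length_ofFn]
  exact meas_thr θ _ _ (meas_bst N θ n)

theorem ex_theta (N : ℕ) (σ : Measure (List Bool → ℝ)) [IsProbabilityMeasure σ] (δ : ℝ)
    (hδ : 0 < δ) : ∃ θ ∈ Ioo (0 : ℝ) δ, ∀ᵐ s ∂σ, ∀ w : List Bool,
      (tst N s w).1 < (tst N s w).2.1 → s w ≠ thr θ (N - w.length) (tst N s w) := by
  set T : List Bool → ℝ → Set (List Bool → ℝ) := fun w θ =>
    {s | (tst N s w).1 < (tst N s w).2.1 ∧ s w = thr θ (N - w.length) (tst N s w)} with hT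
  have hm : ∀ w θ, MeasurableSet (T w θ) := fun w θ =>
    (measurableSet_lt (meas_tst N w).fst (meas_tst N w).snd.fst).inter
      (measurableSet_eq_fun (measurable_pi_apply w) (meas_thr θ _ _ (meas_tst N w)))
  have hd : ∀ w, Pairwise (Function.onFun Disjoint (T w)) := by
    intro w θ θ' hne
    refine Set.disjoint_left.2 fun s h1 h2 => hne ?_
    have e := h1.2.symm.trans h2.2
    simp only [thr] at e
    have e2 := mul_right_cancel₀ (sub_pos.2 h1.1).ne' (add_left_cancel e)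
    unfold pert at e2
    split_ifs at e2 <;> linarith
  have hc : (⋃ w, {θ | 0 < σ (T w θ)}).Countable :=
    countable_iUnion fun w => Measure.countable_meas_pos_of_disjoint_iUnion (hm w) (hd w)
  obtain ⟨θ, h1, h2⟩ := ex_notMem _ hc 0 δ hδ
  refine ⟨θ, h1, ae_all_iff.2 fun w => ?_⟩
  have : σ (T w θ) = 0 := by
    by_contra hn
    exact h2 (mem_iUnion.2 ⟨w, pos_iff_ne_zero.2 hn⟩)
  rw [ae_iff]
  convert this using 2
  ext s
  simp [hT]

theorem blue (N : ℕ) (σ : Measure (List Bool → ℝ)) [IsProbabilityMeasure σ] (ε : ℝ)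
    (hε : 0 < ε) : ∃ τ, Legal τ ∧ ENNReal.ofReal (F N 0 - ε) ≤ ∫⁻ s, payoff s τ ∂σ := by
  have hK : (0 : ℝ) ≤ N * (4 * N + 3) := by positivity
  obtain ⟨θ, ⟨h0, h1⟩, hθ⟩ := ex_theta N σ (min (1 / 2) (ε / (N * (4 * N + 3) + 1)))
    (lt_min (by norm_num) (by positivity))
  have h2 := lt_of_lt_of_le h1 (min_le_left _ _)
  have h3 := lt_of_lt_of_le h1 (min_le_right _ _)
  rw [lt_div_iff₀ (by positivity)] at h3
  refine ⟨tau N θ, legal_tau N θ h0 h2, ?_⟩
  have : ∫⁻ _, ENNReal.ofReal (F N 0 - ε) ∂σ = ENNReal.ofReal (F N 0 - ε) := by simp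
  rw [← this]
  refine lintegral_mono_ae (hθ.mono fun s hs => ?_)
  obtain ⟨p1, _, p3, p4⟩ := play_tau N θ h0 h2 s
  unfold payoff
  rw [if_neg]
  · refine le_iInf fun x => le_iInf fun hx => ?_
    have hx2 : Tendsto (pos s (tau N θ)) atTop (𝓝 (pos s (tau N θ) N)) :=
      tendsto_const_nhds.congr' ((eventually_ge_atTop N).mono fun n hn => (p3 n hn).symm)
    rw [tendsto_nhds_unique hx hx2]
    refine le_trans ?_ (ENNReal.sum_le_tsum (Finset.range N))
    rw [← ENNReal.ofReal_sum_of_nonneg fun i _ => abs_nonneg _]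
    exact ENNReal.ofReal_le_ofReal (by nlinarith)
  · rintro ⟨n, hn⟩
    obtain ⟨i1, i2, i3⟩ := hist_inv N θ s n
    refine hs (hist s (tau N θ) n).1 (i3 ▸ p1 n) ?_
    rw [← i3, i1]
    simpa only [guess, pos, tau, i2] using hn

theorem main (lam : ℤ → ℝ) (v : ℝ) (hl : ∀ k, lam k ∈ Ioo (0 : ℝ) 1)
    (hv : ∀ h ∈ Icc (0 : ℝ) 1, (∀ w, alpern lam w ≠ h) →
      HasSum (fun n => |guess (alpern lam) (fun _ => h) n - h|) v)
    (σ : Measure (List Bool → ℝ)) [IsProbabilityMeasure σ] :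
    ENNReal.ofReal v ≤ ⨆ τ : List ℝ → ℝ, ⨆ _ : Legal τ, ∫⁻ s, payoff s τ ∂σ := by
  have hF := v_lim lam v hl hv
  have h1 : Tendsto (fun m : ℕ => F m 0 - 1 / ((m : ℝ) + 1)) atTop (𝓝 (v - 0)) :=
    hF.sub tendsto_one_div_add_atTop_nhds_zero_nat
  rw [sub_zero] at h1
  refine le_of_tendsto' (ENNReal.tendsto_ofReal h1) fun m => ?_
  obtain ⟨τ, h2, h3⟩ := blue m σ (1 / ((m : ℝ) + 1)) (by positivity)
  exact le_trans h3 (le_iSup₂_of_le (f := fun τ (_ : Legal τ) => ∫⁻ s, payoff s τ ∂σ) τ h2 le_rfl)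

end Pool.Agent.H.MP_b21e06_an
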