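import Pool.Agent.H.MP_b21e06_an.D

set_option autoImplicit false

namespace Pool.Agent.H.MP_b21e06_an

open Set Filter Topology

theorem path (D γ : ℤ → ℝ) (hγ : ∀ k, γ k ∈ Ioo (0 : ℝ) 1) (D0 : ∀ k, 0 ≤ D k)
    (D1 : ∀ k : ℤ, D k ≤ |(k : ℝ)| + 1)
    (D2 : ∀ k, D k ≤ max ((1 - γ k) * D (k + 1)) (γ k * D (k - 1)))
    (g1 : ∀ n : ℕ, 1 / 3 ≤ γ n) (g2 : ∀ n : ℕ, γ (-n) ≤ 2 / 3) : D 0 = 0 := by
  have lim : Tendsto (fun n : ℕ => (2 / 3 : ℝ) ^ n * (n + 1)) atTop (𝓝 0) := by
    have h1 := tendsto_self_mul_const_pow_of_lt_one (r := (2 / 3 : ℝ)) (by norm_num) (by norm_num)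
    have h2 := tendsto_pow_atTop_nhds_zero_of_lt_one (r := (2 / 3 : ℝ)) (by norm_num) (by norm_num)
    have := h1.add h2
    rw [add_zero] at this
    refine this.congr fun n => ?_
    ring
  by_contra hne
  have hp : 0 < D 0 := lt_of_le_of_ne (D0 0) (Ne.symm hne)
  rcases le_max_iff.1 (D2 0) with hc | hc
  · have key : ∀ n : ℕ, 0 < D n ∧ D n ≤ (1 - γ n) * D (n + 1) := by
      intro n
      induction n with
      | zero => exact ⟨by simpa using hp, by simpa using hc⟩
      | succ n ih =>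
        obtain ⟨i1, i2⟩ := ih
        have g1 := hγ n
        have g2 := hγ (n + 1)
        have d1 := D0 (n + 1)
        have i3 : D n ≤ D (n + 1) := by nlinarith [g1.1]
        push_cast
        refine ⟨by linarith, ?_⟩
        rcases le_max_iff.1 (D2 (n + 1)) with hc | hc
        · exact hc
        · rw [add_sub_cancel_right] at hc
          nlinarith [g2.2]
    have k2 : ∀ n : ℕ, D 0 ≤ (2 / 3 : ℝ) ^ n * D n := by
      intro n
      induction n with
      | zero => simp
      | succ n ih =>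
        have a1 : D n ≤ 2 / 3 * D (n + 1) := by nlinarith [(key n).2, g1 n, D0 (n + 1)]
        push_cast
        rw [pow_succ]
        nlinarith [mul_le_mul_of_nonneg_left a1 (by positivity : (0 : ℝ) ≤ (2 / 3) ^ n)]
    have : D 0 ≤ 0 := by
      refine ge_of_tendsto' lim fun n => le_trans (k2 n)
        (mul_le_mul_of_nonneg_left ?_ (by positivity))
      simpa using D1 n
    linarith
  · have key : ∀ n : ℕ, 0 < D (-n) ∧ D (-n) ≤ γ (-n) * D (-n - 1) := by
      intro n
      induction n with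
      | zero => exact ⟨by simpa using hp, by simpa using hc⟩
      | succ n ih =>
        obtain ⟨i1, i2⟩ := ih
        have g1 := hγ (-n)
        have g2 := hγ (-n - 1)
        have d1 := D0 (-n - 1)
        have i3 : D (-n) ≤ D (-n - 1) := by nlinarith [g1.2]
        have e : (-((n + 1 : ℕ) : ℤ)) = -n - 1 := by push_cast; ring
        rw [e]
        refine ⟨by linarith, ?_⟩
        rcases le_max_iff.1 (D2 (-n - 1)) with hc | hc
        · rw [sub_add_cancel] at hc
          nlinarith [g2.1]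
        · exact hc
    have k2 : ∀ n : ℕ, D 0 ≤ (2 / 3 : ℝ) ^ n * D (-n) := by
      intro n
      induction n with
      | zero => simp
      | succ n ih =>
        have a1 : D (-n) ≤ 2 / 3 * D (-n - 1) := by nlinarith [(key n).2, g2 n, D0 (-n - 1)]
        have e : (-((n + 1 : ℕ) : ℤ)) = -n - 1 := by push_cast; ring
        rw [e, pow_succ]
        nlinarith [mul_le_mul_of_nonneg_left a1 (by positivity : (0 : ℝ) ≤ (2 / 3) ^ n)]
    have : D 0 ≤ 0 := by
      refine ge_of_tendsto' lim fun n => le_trans (k2 n)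
        (mul_le_mul_of_nonneg_left ?_ (by positivity))
      simpa using D1 (-n)
    linarith

theorem F_le1 (m : ℕ) : ∀ k : ℤ, F m k ≤ max (k : ℝ) 0 + 1 := by
  induction m with
  | zero => intro k; show max (k : ℝ) 0 ≤ _; linarith
  | succ m ih =>
    intro k
    obtain ⟨g, g0, g1, e1, e2⟩ := F_eq m k
    have x1 := ih (k + 1)
    have y1 := ih (k - 1)
    have x0 := F_up m k
    have y0 := F_dn m (k - 1)
    push_cast at x1 y1
    rcases lt_trichotomy k 0 with hk | hk | hk
    · have hk1 : (k : ℝ) ≤ -1 := by exact_mod_cast (by omega : k ≤ -1)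
      rw [max_eq_right (by linarith)] at x1 ⊢
      nlinarith
    · subst hk
      simp only [Int.cast_zero, zero_add, zero_sub, max_self, zero_mul] at *
      rw [max_eq_left (by norm_num)] at x1
      rw [max_eq_right (by norm_num)] at y1
      nlinarith
    · have hk1 : (1 : ℝ) ≤ k := by exact_mod_cast (by omega : 1 ≤ k)
      rw [max_eq_left (by linarith)] at y1 ⊢
      nlinarith

theorem exG : ∃ G γ : ℤ → ℝ, (∀ k, γ k ∈ Ioo (0 : ℝ) 1) ∧
    (∀ k : ℤ, max (k : ℝ) 0 ≤ G k) ∧ (∀ k : ℤ, G k ≤ max (k : ℝ) 0 + 1) ∧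
    (∀ k : ℤ, G k = k * γ k + (1 - γ k) * G (k + 1)) ∧ (∀ k : ℤ, G k = γ k * (1 + G (k - 1))) ∧
    (∀ n : ℕ, 1 / 3 ≤ γ n) ∧ (∀ n : ℕ, γ (-n) ≤ 2 / 3) := by
  have hlim : ∀ k, ∃ x, Tendsto (fun m => F m k) atTop (𝓝 x) := fun k =>
    ⟨_, tendsto_atTop_ciSup (monotone_nat_of_le_succ fun m => F_mono m k)
      ⟨max (k : ℝ) 0 + 1, by rintro _ ⟨m, rfl⟩; exact F_le1 m k⟩⟩
  choose G hG using hlim
  have G0 : ∀ k : ℤ, max (k : ℝ) 0 ≤ G k := fun k => ge_of_tendsto' (hG k) fun m => F_ge m k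
  have G1 : ∀ k : ℤ, G k ≤ max (k : ℝ) 0 + 1 := fun k => le_of_tendsto' (hG k) fun m => F_le1 m k
  have den : ∀ k : ℤ, 0 < 1 + G (k - 1) + G (k + 1) - k := fun k => by
    have a := le_trans (le_max_left _ _) (G0 (k + 1))
    have b := le_trans (le_max_right _ _) (G0 (k - 1))
    push_cast at a
    linarith
  have e2 : ∀ k : ℤ, G k = cr k (G (k + 1)) (G (k - 1)) * (1 + G (k - 1)) := fun k => by
    refine tendsto_nhds_unique ((hG k).comp (tendsto_add_atTop_nat 1)) ?_
    show Tendsto (fun m => F m (k + 1) / (1 + F m (k - 1) + F m (k + 1) - k) * (1 + F m (k - 1)))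
      atTop (𝓝 (G (k + 1) / (1 + G (k - 1) + G (k + 1) - k) * (1 + G (k - 1))))
    exact ((hG _).div ((((hG _).const_add _).add (hG _)).sub_const _) (den k).ne').mul
      ((hG _).const_add _)
  have e1 : ∀ k : ℤ, G k = k * cr k (G (k + 1)) (G (k - 1)) +
      (1 - cr k (G (k + 1)) (G (k - 1))) * G (k + 1) := fun k =>
    (e2 k).trans (cr_spec k _ _ (G0 (k + 1)) (G0 (k - 1))).2.2
  have g0 : 0 < G 0 := by
    have h1 : F 1 0 ≤ G 0 :=
      ge_of_tendsto (hG 0) ((eventually_ge_atTop 1).mono fun m hm =>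
        monotone_nat_of_le_succ (f := fun m => F m 0) (fun m => F_mono m 0) hm)
    have h2 : F 1 0 = 1 / 2 := by norm_num [F, cr]
    linarith
  have p1 : ∀ k : ℤ, 0 < G k := by
    intro k
    induction k using Int.induction_on with
    | zero => exact g0
    | succ n _ =>
      have a := le_trans (le_max_left _ _) (G0 (n + 1))
      push_cast at a
      have : (0 : ℝ) ≤ n := Nat.cast_nonneg n
      linarith
    | pred n ih =>
      have b := le_trans (le_max_right _ _) (G0 (-n - 1 - 1))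
      rw [e2]
      refine mul_pos (div_pos ?_ (den _)) (by linarith)
      rwa [sub_add_cancel]
  have lt1 : ∀ k : ℤ, ((k - 1 : ℤ) : ℝ) < G (k - 1) → cr k (G (k + 1)) (G (k - 1)) < 1 :=
    fun k h => (div_lt_one (den k)).2 (by push_cast at h; linarith)
  have p2 : ∀ k : ℤ, (k : ℝ) < G k := by
    intro k
    induction k using Int.induction_on with
    | zero => simpa using g0
    | succ n ih =>
      have a := le_trans (le_max_left _ _) (G0 (n + 1 + 1))
      have b := lt1 (n + 1) (by rwa [add_sub_cancel_right])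
      have c := e1 (n + 1)
      push_cast at a c ⊢
      nlinarith
    | pred n _ =>
      have := p1 (-n - 1)
      have : (0 : ℝ) ≤ n := Nat.cast_nonneg n
      push_cast
      linarith
  refine ⟨G, fun k => cr k (G (k + 1)) (G (k - 1)), fun k => ⟨div_pos (p1 _) (den k),
    lt1 k (p2 _)⟩, G0, G1, e1, e2, fun n => ?_, fun n => ?_⟩
  · have a := le_trans (le_max_left _ _) (G0 (n + 1))
    have b := G1 (n - 1)
    have c : max ((((n : ℤ) - 1 : ℤ)) : ℝ) 0 ≤ n := by
      push_cast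
      exact max_le (by linarith) (Nat.cast_nonneg n)
    have : (0 : ℝ) ≤ n := Nat.cast_nonneg n
    simp only [cr]
    rw [le_div_iff₀ (den _)]
    push_cast at a ⊢
    linarith
  · have a := p1 (-n - 1)
    have b := G1 (-n + 1)
    have : (0 : ℝ) ≤ n := Nat.cast_nonneg n
    have c : max (((-(n : ℤ) + 1 : ℤ)) : ℝ) 0 ≤ 1 := by
      push_cast
      exact max_le (by linarith) zero_le_one
    simp only [cr]
    rw [div_le_iff₀ (den _)]
    push_cast
    linarith

theorem exA : ∃ (lam : ℤ → ℝ) (v : ℝ), (∀ k, lam k ∈ Ioo (0 : ℝ) 1) ∧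
    ∀ h ∈ Icc (0 : ℝ) 1, (∀ w, alpern lam w ≠ h) →
      HasSum (fun n => |guess (alpern lam) (fun _ => h) n - h|) v := by
  obtain ⟨G, γ, hγ, G0, G1, e1, e2, g1, g2⟩ := exG
  set lam : ℤ → ℝ := fun k => 1 - γ k with hlam
  set r : ℕ → ℤ → ℝ → ℝ := fun n k t =>
    G k - k * t - ∑ i ∈ Finset.range n, |pt lam ((step lam t)^[i] (0, 1, k)) - t| with hr
  have ept : ∀ k, pt lam (0, 1, k) = γ k := fun k => by simp [pt, hlam]
  have sc : ∀ (a c : ℝ), 0 < c → ∀ (t : ℝ) (i : ℕ) (k : ℤ),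
      |pt lam ((step lam (a + c * t))^[i] (a, a + c, k)) - (a + c * t)| =
        c * |pt lam ((step lam t)^[i] (0, 1, k)) - t| := by
    intro a c hc t i k
    have e := step_scale lam a c hc t i (0, 1, k)
    simp only [mul_zero, add_zero, mul_one] at e
    rw [e]
    generalize (step lam t)^[i] (0, 1, k) = T
    have : pt lam (a + c * T.1, a + c * T.2.1, T.2.2) - (a + c * t) = c * (pt lam T - t) := by
      simp only [pt]; ring
    rw [this, abs_mul, abs_of_pos hc]
  have rec' : ∀ (k : ℤ) (t : ℝ), t ∈ Icc (0 : ℝ) 1 →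
      (∃ t' ∈ Icc (0 : ℝ) 1, ∀ n, r (n + 1) k t = (1 - γ k) * r n (k + 1) t') ∨
      (∃ t' ∈ Icc (0 : ℝ) 1, ∀ n, r (n + 1) k t = γ k * r n (k - 1) t') := by
    intro k t ht
    obtain ⟨l0, l1⟩ := hγ k
    by_cases h : γ k < t
    · left
      have hc : 0 < 1 - γ k := by linarith
      obtain ⟨u, hu⟩ : ∃ u, t = γ k + (1 - γ k) * u := ⟨(t - γ k) / (1 - γ k), by field_simp; ring⟩
      refine ⟨u, ⟨by nlinarith, by nlinarith [ht.2]⟩, fun n => ?_⟩
      have e : step lam t (0, 1, k) = (γ k, γ k + (1 - γ k), k + 1) := by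
        simp only [step, ept]
        rw [if_pos h]
        simp
      simp only [hr, Finset.sum_range_succ', Function.iterate_succ_apply, e,
        Function.iterate_zero_apply, ept]
      rw [abs_of_neg (by linarith), e1 k, hu]
      simp only [sc _ _ hc, ← Finset.mul_sum]
      push_cast
      ring
    · right
      obtain ⟨u, hu⟩ : ∃ u, t = 0 + γ k * u := ⟨t / γ k, by field_simp; ring⟩
      push Not at h
      refine ⟨u, ⟨by nlinarith [ht.1], by nlinarith⟩, fun n => ?_⟩
      have e : step lam t (0, 1, k) = (0, 0 + γ k, k - 1) := by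
        simp only [step, ept]
        rw [if_neg (not_lt.2 h)]
        simp
      simp only [hr, Finset.sum_range_succ', Function.iterate_succ_apply, e,
        Function.iterate_zero_apply, ept]
      rw [abs_of_nonneg (by linarith), e2 k, hu]
      simp only [sc _ _ l0, ← Finset.mul_sum]
      push_cast
      ring
  have r0 : ∀ n (k : ℤ) (t : ℝ), t ∈ Icc (0 : ℝ) 1 → 0 ≤ r n k t := by
    intro n
    induction n with
    | zero =>
      intro k t ht
      have a := le_trans (le_max_left _ _) (G0 k)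
      have b := le_trans (le_max_right _ _) (G0 k)
      simp only [hr, Finset.range_zero, Finset.sum_empty, sub_zero]
      nlinarith [ht.1, ht.2]
    | succ n ih =>
      intro k t ht
      rcases rec' k t ht with ⟨u, hu, h⟩ | ⟨u, hu, h⟩
      · rw [h]; exact mul_nonneg (by linarith [(hγ k).2]) (ih _ _ hu)
      · rw [h]; exact mul_nonneg (hγ k).1.le (ih _ _ hu)
  have hs : ∀ (k : ℤ) (t : ℝ), t ∈ Icc (0 : ℝ) 1 →
      Summable fun i => |pt lam ((step lam t)^[i] (0, 1, k)) - t| := fun k t ht =>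
    summable_of_sum_range_le (c := G k - k * t) (fun _ => abs_nonneg _) fun n => by
      have := r0 n k t ht
      simp only [hr] at this
      linarith
  set ρ : ℤ → ℝ → ℝ := fun k t =>
    G k - k * t - ∑' i, |pt lam ((step lam t)^[i] (0, 1, k)) - t| with hρ
  have rl : ∀ (k : ℤ) (t : ℝ), t ∈ Icc (0 : ℝ) 1 → Tendsto (fun n => r n k t) atTop (𝓝 (ρ k t)) :=
    fun k t ht => tendsto_const_nhds.sub (hs k t ht).hasSum.tendsto_sum_nat
  have ρ0 : ∀ (k : ℤ) (t : ℝ), t ∈ Icc (0 : ℝ) 1 → 0 ≤ ρ k t := fun k t ht =>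
    ge_of_tendsto' (rl k t ht) fun n => r0 n k t ht
  have ρ1 : ∀ (k : ℤ) (t : ℝ), t ∈ Icc (0 : ℝ) 1 → ρ k t ≤ |(k : ℝ)| + 1 := fun k t ht => by
    have a : 0 ≤ ∑' i, |pt lam ((step lam t)^[i] (0, 1, k)) - t| :=
      tsum_nonneg fun _ => abs_nonneg _
    have b := G1 k
    simp only [hρ]
    rcases le_total 0 (k : ℝ) with hk | hk
    · rw [max_eq_left hk] at b
      rw [abs_of_nonneg hk]
      nlinarith [ht.1]
    · rw [max_eq_right hk] at b
      rw [abs_of_nonpos hk]
      nlinarith [ht.2]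
  have bd : ∀ k, BddAbove (ρ k '' Icc (0 : ℝ) 1) := fun k =>
    ⟨|(k : ℝ)| + 1, by rintro _ ⟨t, ht, rfl⟩; exact ρ1 k t ht⟩
  have ne : ∀ k, (ρ k '' Icc (0 : ℝ) 1).Nonempty := fun k => ⟨_, 0, by simp, rfl⟩
  have le : ∀ (k : ℤ) (t : ℝ), t ∈ Icc (0 : ℝ) 1 → ρ k t ≤ sSup (ρ k '' Icc (0 : ℝ) 1) :=
    fun k t ht => le_csSup (bd k) ⟨t, ht, rfl⟩
  have hz := path (fun k => sSup (ρ k '' Icc (0 : ℝ) 1)) γ hγ
    (fun k => le_trans (ρ0 k 0 (by simp)) (le k 0 (by simp)))
    (fun k => csSup_le (ne k) (by rintro _ ⟨t, ht, rfl⟩; exact ρ1 k t ht))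
    (fun k => csSup_le (ne k) (by
      rintro _ ⟨t, ht, rfl⟩
      have t1 := (rl k t ht).comp (tendsto_add_atTop_nat 1)
      rcases rec' k t ht with ⟨u, hu, h⟩ | ⟨u, hu, h⟩
      · refine le_max_of_le_left ?_
        rw [tendsto_nhds_unique t1 (((rl _ u hu).const_mul (1 - γ k)).congr fun n => (h n).symm)]
        exact mul_le_mul_of_nonneg_left (le _ _ hu) (by linarith [(hγ k).2])
      · refine le_max_of_le_right ?_
        rw [tendsto_nhds_unique t1 (((rl _ u hu).const_mul (γ k)).congr fun n => (h n).symm)]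
        exact mul_le_mul_of_nonneg_left (le _ _ hu) (hγ k).1.le)) g1 g2
  refine ⟨lam, G 0, fun k => ⟨by simp only [hlam]; linarith [(hγ k).2],
    by simp only [hlam]; linarith [(hγ k).1]⟩, fun h hh _ => ?_⟩
  simp only [guess_static]
  refine hs_congr (hs 0 h hh).hasSum rfl ?_
  have a := ρ0 0 h hh
  have b := le 0 h hh
  rw [hz] at b
  simp only [hρ, Int.cast_zero, zero_mul, sub_zero] at a b
  linarith

end Pool.Agent.H.MP_b21e06_an
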